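import Pool.Agent.P8H39.TI.Stm2
import Pool.Agent.P8H59.TI.Finl

/-!
# Project TI, package KONE: the case `k = t + 1`
-/

set_option autoImplicit false

namespace Pool.Agent.P8H7.TI

open Finset
open Pool.Agent.P8H39.TI

theorem sum_degr {n k r : ℕ} (F : Finset (Finset (Fin n))) (hF : ∀ A ∈ F, A.card = k) :
    ∑ R ∈ slice n r, (deg F R : ℝ) = (k.choose r : ℝ) * F.card := by
  have h1 : ∑ R ∈ slice n r, deg F R = F.card * k.choose r := by
    have h2 : ∀ R, deg F R = ∑ A ∈ F, if R ⊆ A then 1 else 0 := fun R => by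
      unfold deg
      rw [Finset.card_filter]
    rw [Finset.sum_congr rfl fun R _ => h2 R, Finset.sum_comm, Finset.card_eq_sum_ones,
      Finset.sum_mul]
    refine Finset.sum_congr rfl fun A hA => ?_
    rw [one_mul, ← Finset.card_filter]
    have h3 : (slice n r).filter (fun R => R ⊆ A) = powersetCard r A := by
      ext R
      rw [Finset.mem_filter, Finset.mem_powersetCard, Finset.mem_powersetCard]
      constructor
      · rintro ⟨⟨-, h⟩, h'⟩
        exact ⟨h', h⟩
      · rintro ⟨h', h⟩
        exact ⟨⟨Finset.subset_univ _, h⟩, h'⟩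
    rw [h3, Finset.card_powersetCard, hF A hA]
  have h2 : ((∑ R ∈ slice n r, deg F R : ℕ) : ℝ) = ((F.card * k.choose r : ℕ) : ℝ) := by rw [h1]
  push_cast at h2
  rw [h2]; ring

theorem star_deg {n t : ℕ} (T : Finset (Fin n)) (hT : T.card = t) (R : Finset (Fin n)) :
    deg (star (t + 1) T) R = 0 ∨ deg (star (t + 1) T) R = 1 ∨
      deg (star (t + 1) T) R = (star (t + 1) T).card := by
  by_cases hR : R ⊆ T
  · right; right
    unfold deg
    rw [Finset.filter_true_of_mem]
    intro A hA
    unfold Pool.Agent.P8H39.TI.star at hA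
    rw [Finset.mem_filter] at hA
    exact hR.trans hA.2
  · obtain ⟨x, hxR, hxT⟩ := Finset.not_subset.1 hR
    have h1 : deg (star (t + 1) T) R ≤ 1 := by
      unfold deg
      rw [Finset.card_le_one]
      have key : ∀ A ∈ (star (t + 1) T).filter (fun A => R ⊆ A), A = insert x T := by
        intro A hA
        unfold Pool.Agent.P8H39.TI.star at hA
        rw [Finset.mem_filter, Finset.mem_filter, Finset.mem_powersetCard] at hA
        symm
        apply Finset.eq_of_subset_of_card_le
        · exact Finset.insert_subset (hA.2 hxR) hA.1.2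
        · rw [hA.1.1.2, Finset.card_insert_of_notMem hxT, hT]
      intro A hA B hB
      rw [key A hA, key B hB]
    omega

theorem rp {p D x : ℝ} (hp : 2 ≤ p) (hD : 1 < D) (h1 : 1 ≤ x) (h2 : x ≤ D) :
    x ^ p ≤ (D - D ^ (p - 1)) / (D - 1) * x + (D ^ (p - 1) - 1) / (D - 1) * x ^ 2 := by
  have hD1 : 0 < D - 1 := by linarith
  have h01 : (1 : ℝ) ∈ Set.Ici (0 : ℝ) := Set.mem_Ici.2 zero_le_one
  have h0D : D ∈ Set.Ici (0 : ℝ) := by
    show 0 ≤ D
    linarith
  have hc := (convexOn_rpow (show 1 ≤ p - 1 by linarith)).2 h01 h0D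
    (div_nonneg (show 0 ≤ D - x by linarith) hD1.le)
    (div_nonneg (show 0 ≤ x - 1 by linarith) hD1.le) (by
      rw [← add_div, div_eq_one_iff_eq hD1.ne']; ring)
  simp only [smul_eq_mul, mul_one, Real.one_rpow] at hc
  have e1 : (D - x) / (D - 1) + (x - 1) / (D - 1) * D = x := by
    field_simp; ring
  rw [e1] at hc
  have hx0 : 0 ≤ x := by linarith
  have e2 : x ^ p = x * x ^ (p - 1) := by
    rw [← Real.rpow_one_add' hx0 (by linarith)]
    congr 1; ring
  rw [e2]
  calc x * x ^ (p - 1) ≤ x * ((D - x) / (D - 1) + (x - 1) / (D - 1) * D ^ (p - 1)) :=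
        mul_le_mul_of_nonneg_left hc hx0
    _ = _ := by field_simp; ring

theorem req {p D x : ℝ} (hp : 2 ≤ p) (hD : 1 < D) (h : x = 0 ∨ x = 1 ∨ x = D) :
    x ^ p = (D - D ^ (p - 1)) / (D - 1) * x + (D ^ (p - 1) - 1) / (D - 1) * x ^ 2 := by
  have hD1 : 0 < D - 1 := by linarith
  rcases h with rfl | rfl | rfl
  · rw [Real.zero_rpow (by linarith)]; ring
  · rw [Real.one_rpow]; field_simp; ring
  · have e2 : x ^ p = x * x ^ (p - 1) := by
      rw [← Real.rpow_one_add' (by linarith) (by linarith)]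
      congr 1; ring
    rw [e2]; field_simp; ring

/-- **KONE** -/
theorem t_KONE (hL : S_LTWO) (hPS : S_PS) : S_KONE := by
  intro n t r p F T ht hn hF hT hr hp
  have hn' : (t + 1) * (t + 1 - t + 1) ≤ n := by
    rw [Nat.add_sub_cancel_left]; linarith
  have hL' := hL n (t + 1) t r F T ht (Nat.lt_succ_self t) hn' hF hT hr
  have hcard := Pool.Agent.P8H59.TI.card_le hPS F T ht (Nat.lt_succ_self t) hn' hF hT
  obtain ⟨D, hD⟩ : ∃ D : ℝ, D = ((star (t + 1) T).card : ℝ) := ⟨_, rfl⟩
  -- the size of the star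
  have hS : ∀ A ∈ star (t + 1) T, A.card = t + 1 := by
    intro A hA
    unfold Pool.Agent.P8H39.TI.star at hA
    rw [Finset.mem_filter, Finset.mem_powersetCard] at hA
    exact hA.1.2
  have hD2 : 2 ≤ (star (t + 1) T).card := by
    have h1 : (Tᶜ).card ≤ (star (t + 1) T).card := by
      refine Finset.card_le_card_of_injOn (fun x => insert x T) ?_ ?_
      · intro x hx
        rw [Finset.mem_coe, Finset.mem_compl] at hx
        rw [Finset.mem_coe]
        unfold Pool.Agent.P8H39.TI.star
        rw [Finset.mem_filter, Finset.mem_powersetCard]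
        exact ⟨⟨Finset.subset_univ _, by rw [Finset.card_insert_of_notMem hx, hT]⟩,
          Finset.subset_insert _ _⟩
      · intro x hx y hy hxy
        rw [Finset.mem_coe, Finset.mem_compl] at hx hy
        have h2 : x ∈ insert y T := by
          rw [← show insert x T = insert y T from hxy]
          exact Finset.mem_insert_self _ _
        rcases Finset.mem_insert.1 h2 with h | h
        · exact h
        · exact absurd h hx
    rw [Finset.card_compl, Fintype.card_fin, hT] at h1
    omega
  have hD1 : 1 < D := by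
    rw [hD]
    exact_mod_cast hD2
  rw [← hD] at hL' hcard
  obtain ⟨α, hα⟩ : ∃ α : ℝ, α = (D - D ^ (p - 1)) / (D - 1) := ⟨_, rfl⟩
  obtain ⟨β, hβ⟩ : ∃ β : ℝ, β = (D ^ (p - 1) - 1) / (D - 1) := ⟨_, rfl⟩
  have hβ0 : 0 ≤ β := by
    rw [hβ]
    exact div_nonneg (by linarith [Real.one_le_rpow hD1.le (show 0 ≤ p - 1 by linarith)])
      (by linarith)
  have hF1 : ell r p F ≤ α * ((t + 1).choose r * F.card) +
      β * ∑ R ∈ slice n r, (deg F R : ℝ) ^ 2 := by
    rw [← sum_degr F hF.1, Finset.mul_sum, Finset.mul_sum, ← Finset.sum_add_distrib]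
    unfold ell
    refine Finset.sum_le_sum fun R _ => ?_
    rcases Nat.eq_zero_or_pos (deg F R) with h | h
    · rw [h, Nat.cast_zero, Real.zero_rpow (by linarith)]
      ring_nf
      exact le_rfl
    · rw [hα, hβ]
      refine rp hp hD1 (by exact_mod_cast h) (le_trans ?_ hcard)
      have : deg F R ≤ F.card := Finset.card_filter_le _ _
      exact_mod_cast this
  have hS1 : ell r p (star (t + 1) T) = α * ((t + 1).choose r * D) +
      β * ∑ R ∈ slice n r, (deg (star (t + 1) T) R : ℝ) ^ 2 := by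
    rw [hD, ← sum_degr _ hS, Finset.mul_sum, Finset.mul_sum, ← Finset.sum_add_distrib]
    unfold ell
    refine Finset.sum_congr rfl fun R _ => ?_
    rw [hα, hβ]
    refine req hp hD1 ?_
    rw [hD]
    rcases star_deg T hT R with h | h | h
    · left; rw [h]; simp
    · right; left; rw [h]; simp
    · right; right; rw [h]
  have hS0 : 0 ≤ ell r p (star (t + 1) T) := Finset.sum_nonneg fun R _ =>
    Real.rpow_nonneg (Nat.cast_nonneg _) _
  have hD0 : 0 < D := by linarith
  have hFc : (0 : ℝ) ≤ F.card := Nat.cast_nonneg _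
  refine le_of_mul_le_mul_right ?_ hD0
  calc ell r p F * D ≤ (α * ((t + 1).choose r * F.card) +
        β * ∑ R ∈ slice n r, (deg F R : ℝ) ^ 2) * D := mul_le_mul_of_nonneg_right hF1 hD0.le
    _ = α * ((t + 1).choose r * D) * F.card + β * ((∑ R ∈ slice n r, (deg F R : ℝ) ^ 2) * D) := by
        ring
    _ ≤ α * ((t + 1).choose r * D) * F.card + β * (F.card *
        ∑ R ∈ slice n r, (deg (star (t + 1) T) R : ℝ) ^ 2) := by
        have := mul_le_mul_of_nonneg_left hL' hβ0
        linarith
    _ = F.card * ell r p (star (t + 1) T) := by rw [hS1]; ring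
    _ ≤ D * ell r p (star (t + 1) T) := mul_le_mul_of_nonneg_right hcard hS0
    _ = _ := by ring

end Pool.Agent.P8H7.TI
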