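import Pool.Agent.P8H39.TI.Stm2

/-!
# Project TI, package PW: from thresholds to powers
-/

set_option autoImplicit false

namespace Pool.Agent.P8H7.TI

open Finset MeasureTheory
open Pool.Agent.P8H39.TI

theorem int_pw {p : ℝ} (hp : 2 < p) (x M : ℝ) :
    IntervalIntegrable (fun c : ℝ => (max (x - c) 0) ^ 2 * c ^ (p - 3)) volume 0 M := by
  have h1 : IntervalIntegrable (fun c : ℝ => c ^ (p - 3)) volume 0 M :=
    intervalIntegral.intervalIntegrable_rpow' (by linarith)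
  exact h1.continuousOn_mul (f := fun c : ℝ => c ^ (p - 3))
    (g := fun c : ℝ => (max (x - c) 0) ^ 2) (by fun_prop)

theorem int_one {p : ℝ} (hp : 2 < p) :
    IntervalIntegrable (fun c : ℝ => (1 - c) ^ 2 * c ^ (p - 3)) volume 0 1 := by
  have h1 : IntervalIntegrable (fun c : ℝ => c ^ (p - 3)) volume 0 1 :=
    intervalIntegral.intervalIntegrable_rpow' (by linarith)
  exact h1.continuousOn_mul (f := fun c : ℝ => c ^ (p - 3))
    (g := fun c : ℝ => (1 - c) ^ 2) (by fun_prop)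

theorem pos_one {p : ℝ} (hp : 2 < p) : 0 < ∫ c in (0 : ℝ)..1, (1 - c) ^ 2 * c ^ (p - 3) := by
  refine intervalIntegral.intervalIntegral_pos_of_pos_on (int_one hp) ?_ one_pos
  intro c hc
  have h1 : 0 < 1 - c := by linarith [hc.2]
  exact mul_pos (pow_pos h1 2) (Real.rpow_pos_of_pos hc.1 _)

theorem key_pw {p : ℝ} (hp : 2 < p) (x M : ℝ) (hx : 0 ≤ x) (hxM : x ≤ M) :
    ∫ c in (0 : ℝ)..M, (max (x - c) 0) ^ 2 * c ^ (p - 3) =
      x ^ p * ∫ c in (0 : ℝ)..1, (1 - c) ^ 2 * c ^ (p - 3) := by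
  have h0 : ∫ c in x..M, (max (x - c) 0) ^ 2 * c ^ (p - 3) = 0 := by
    rw [intervalIntegral.integral_congr (g := fun _ => (0 : ℝ)), intervalIntegral.integral_zero]
    intro c hc
    rw [Set.uIcc_of_le hxM] at hc
    show (max (x - c) 0) ^ 2 * c ^ (p - 3) = 0
    rw [max_eq_right (by linarith [hc.1])]
    ring
  have hi1 : IntervalIntegrable (fun c : ℝ => (max (x - c) 0) ^ 2 * c ^ (p - 3)) volume 0 x :=
    int_pw hp x x
  have hi2 : IntervalIntegrable (fun c : ℝ => (max (x - c) 0) ^ 2 * c ^ (p - 3)) volume x M :=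
    (int_pw hp x x).symm.trans (int_pw hp x M)
  rw [← intervalIntegral.integral_add_adjacent_intervals hi1 hi2, h0, add_zero]
  rcases eq_or_lt_of_le hx with rfl | hx0
  · rw [intervalIntegral.integral_same, Real.zero_rpow (by linarith), zero_mul]
  have h1 := intervalIntegral.integral_comp_mul_left (a := 0) (b := 1)
    (fun c : ℝ => (max (x - c) 0) ^ 2 * c ^ (p - 3)) hx0.ne'
  rw [mul_zero, mul_one, smul_eq_mul] at h1
  have h2 : ∫ c in (0 : ℝ)..1, (max (x - x * c) 0) ^ 2 * (x * c) ^ (p - 3) =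
      ∫ c in (0 : ℝ)..1, x ^ (p - 1) * ((1 - c) ^ 2 * c ^ (p - 3)) := by
    refine intervalIntegral.integral_congr fun c hc => ?_
    rw [Set.uIcc_of_le zero_le_one] at hc
    show (max (x - x * c) 0) ^ 2 * (x * c) ^ (p - 3) = x ^ (p - 1) * ((1 - c) ^ 2 * c ^ (p - 3))
    have h3 : 0 ≤ x - x * c := by nlinarith [hc.2]
    rw [max_eq_left h3, Real.mul_rpow hx hc.1]
    have h4 : x ^ (p - 1) = x ^ 2 * x ^ (p - 3) := by
      rw [← Real.rpow_two, ← Real.rpow_add hx0]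
      congr 1; ring
    rw [h4]; ring
  rw [h2, intervalIntegral.integral_const_mul] at h1
  have h5 : x ^ p = x * x ^ (p - 1) := by
    rw [← Real.rpow_one_add' hx (by linarith)]
    congr 1; ring
  rw [h5, mul_assoc, h1, ← mul_assoc, mul_inv_cancel₀ hx0.ne', one_mul]

/-- **PW** -/
theorem t_PW : S_PW := by
  intro n s a b p hp ha hb h
  rcases eq_or_lt_of_le hp with hp2 | hp2
  · subst hp2
    have h0 := h 0 le_rfl
    have e : ∀ f : Finset (Fin n) → ℝ, (∀ R ∈ s, 0 ≤ f R) →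
        ∑ R ∈ s, f R ^ (2 : ℝ) = ∑ R ∈ s, (max (f R - 0) 0) ^ 2 := fun f hf =>
      Finset.sum_congr rfl fun R hR => by
        rw [sub_zero, max_eq_left (hf R hR), Real.rpow_two]
    rw [e a ha, e b hb]
    exact h0
  · obtain ⟨M, hM⟩ : ∃ M : ℝ, M = ∑ R ∈ s, a R + ∑ R ∈ s, b R := ⟨_, rfl⟩
    have hsa : 0 ≤ ∑ R ∈ s, a R := Finset.sum_nonneg ha
    have hsb : 0 ≤ ∑ R ∈ s, b R := Finset.sum_nonneg hb
    have hM0 : 0 ≤ M := by rw [hM]; linarith
    have hMa : ∀ R ∈ s, a R ≤ M := fun R hR => by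
      have := Finset.single_le_sum ha hR
      rw [hM]; linarith
    have hMb : ∀ R ∈ s, b R ≤ M := fun R hR => by
      have := Finset.single_le_sum hb hR
      rw [hM]; linarith
    have e : ∀ f : Finset (Fin n) → ℝ, (∀ R ∈ s, 0 ≤ f R) → (∀ R ∈ s, f R ≤ M) →
        ∫ c in (0 : ℝ)..M, ∑ R ∈ s, (max (f R - c) 0) ^ 2 * c ^ (p - 3) =
          (∑ R ∈ s, f R ^ p) * ∫ c in (0 : ℝ)..1, (1 - c) ^ 2 * c ^ (p - 3) := by
      intro f hf hfM
      rw [intervalIntegral.integral_finset_sum fun R _ => int_pw hp2 (f R) M, Finset.sum_mul]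
      exact Finset.sum_congr rfl fun R hR => key_pw hp2 (f R) M (hf R hR) (hfM R hR)
    have i : ∀ f : Finset (Fin n) → ℝ, IntervalIntegrable
        (fun c : ℝ => ∑ R ∈ s, (max (f R - c) 0) ^ 2 * c ^ (p - 3)) volume 0 M := by
      intro f
      have := IntervalIntegrable.sum s (f := fun R (c : ℝ) => (max (f R - c) 0) ^ 2 * c ^ (p - 3))
        (μ := volume) (a := 0) (b := M) fun R _ => int_pw hp2 (f R) M
      have e2 : (fun c : ℝ => ∑ R ∈ s, (max (f R - c) 0) ^ 2 * c ^ (p - 3)) =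
          ∑ R ∈ s, (fun (c : ℝ) => (max (f R - c) 0) ^ 2 * c ^ (p - 3)) := by
        funext c
        rw [Finset.sum_apply]
      rw [e2]
      exact this
    have hm := intervalIntegral.integral_mono_on hM0 (i a) (i b) (by
      intro c hc
      show ∑ R ∈ s, (max (a R - c) 0) ^ 2 * c ^ (p - 3) ≤
        ∑ R ∈ s, (max (b R - c) 0) ^ 2 * c ^ (p - 3)
      rw [← Finset.sum_mul, ← Finset.sum_mul]
      exact mul_le_mul_of_nonneg_right (h c hc.1) (Real.rpow_nonneg hc.1 _))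
    rw [e a ha hMa, e b hb hMb] at hm
    exact le_of_mul_le_mul_right hm (pos_one hp2)

end Pool.Agent.P8H7.TI
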